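import Pool.Agent.H75.L.W662.CB.Stmts

/-!
# Project CB: part B9
-/

set_option autoImplicit false

open Filter Topology Complex
open scoped InnerProductSpace

namespace Pool.Agent.W300.CB

open Pool.Agent.W662.CB

theorem b9 : S_B9 := by
  intro H K _ _ _ _ _ _ ξ U κ V J E T δ hB Y x r hY hr
  obtain ⟨u, hu⟩ : ∃ u : K, u = (Y * κ x - κ x * Y) (J ξ) := ⟨_, rfl⟩
  have hEE : E 0 * E 0 = E 0 := by
    have h := hB.E_add 0 0
    rw [add_zero] at h
    exact h.symm
  have hEY : E 0 * Y = Y := by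
    calc E 0 * Y = E 0 * (E 0 * Y * E 0) := by rw [hY]
      _ = (E 0 * E 0) * Y * E 0 := by simp only [mul_assoc]
      _ = Y := by rw [hEE, hY]
  have hEu : E 0 u = u := by
    have h1 : E 0 * (Y * κ x - κ x * Y) = Y * κ x - κ x * Y := by
      rw [mul_sub, ← mul_assoc, ← mul_assoc, hEY, ← hB.κ_E x 0, mul_assoc (κ x), hEY]
    rw [hu]
    have h2 := congrArg (fun S : K →L[ℂ] K => S (J ξ)) h1
    exact h2
  have hadj : ∀ (y : H →L[ℂ] H) (v : K), ContinuousLinearMap.adjoint J (κ y v) =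
      y (ContinuousLinearMap.adjoint J v) := by
    intro y v
    refine ext_inner_left ℂ fun w => ?_
    rw [ContinuousLinearMap.adjoint_inner_right, ← ContinuousLinearMap.adjoint_inner_left (κ y),
      ← ContinuousLinearMap.adjoint_inner_left y, ContinuousLinearMap.adjoint_inner_right]
    have h1 : ContinuousLinearMap.adjoint (κ y) = κ (star y) := by
      rw [map_star]
      rfl
    rw [h1, hB.κ_J]
    rfl
  have hcoef : ∀ m : ℤ, ContinuousLinearMap.adjoint J (E ((-((m : ℝ) * T) : ℝ) : ℂ) u) =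
      (cf J E T Y m * x - x * cf J E T Y m) ξ := by
    intro m
    obtain ⟨z, hz⟩ : ∃ z : ℂ, z = ((-((m : ℝ) * T) : ℝ) : ℂ) := ⟨_, rfl⟩
    have hc : ∀ v : H, cf J E T Y m v = ContinuousLinearMap.adjoint J (E z (Y (J v))) := by
      intro v
      rw [hz]
      rfl
    have hcomm : ∀ v : K, E z (κ x v) = κ x (E z v) := by
      intro v
      have h1 := congrArg (fun S : K →L[ℂ] K => S v) (hB.κ_E x z)
      exact h1.symm
    have e1 : (cf J E T Y m * x - x * cf J E T Y m) ξ =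
        cf J E T Y m (x ξ) - x (cf J E T Y m ξ) := rfl
    have e2 : u = Y (κ x (J ξ)) - κ x (Y (J ξ)) := by rw [hu]; rfl
    rw [← hz, e1, hc, hc, e2, map_sub, map_sub, hcomm, hadj, hB.κ_J]
  have hterm : ∀ m : ℤ, ⟪u, E (((m : ℝ) * T : ℝ) : ℂ)
      (J (ContinuousLinearMap.adjoint J (E ((-((m : ℝ) * T) : ℝ) : ℂ) u)))⟫_ℂ =
      ((‖(cf J E T Y m * x - x * cf J E T Y m) ξ‖ ^ 2 : ℝ) : ℂ) := by
    intro m
    have h1 : ContinuousLinearMap.adjoint (E (((m : ℝ) * T : ℝ) : ℂ)) =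
        E ((-((m : ℝ) * T) : ℝ) : ℂ) := by
      have h2 := hB.E_star (((m : ℝ) * T : ℝ) : ℂ)
      rw [Complex.conj_ofReal, ← Complex.ofReal_neg] at h2
      exact h2
    rw [← ContinuousLinearMap.adjoint_inner_left, h1, ← ContinuousLinearMap.adjoint_inner_left J,
      hcoef m, inner_self_eq_norm_sq_to_K]
    push_cast
    rfl
  have hsum := (hB.compl u).mapL (innerSL ℂ u)
  have hsum2 : HasSum (fun m : ℤ => ‖(cf J E T Y m * x - x * cf J E T Y m) ξ‖ ^ 2) (‖u‖ ^ 2) := by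
    have h3 : HasSum (fun m : ℤ =>
        ((‖(cf J E T Y m * x - x * cf J E T Y m) ξ‖ ^ 2 : ℝ) : ℂ)) ((‖u‖ ^ 2 : ℝ) : ℂ) := by
      have h4 : innerSL ℂ u (E 0 u) = ((‖u‖ ^ 2 : ℝ) : ℂ) := by
        rw [hEu, innerSL_apply_apply, inner_self_eq_norm_sq_to_K]
        push_cast
        rfl
      rw [h4] at hsum
      refine hsum.congr_fun ?_
      intro m
      rw [innerSL_apply_apply, hterm m]
    exact Complex.hasSum_ofReal.1 h3
  rw [← hu]
  exact hasSum_le_of_sum_le hsum2 hr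

end Pool.Agent.W300.CB
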